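import Mathlib
import Pool.Agent.Pr8db9c5.Defs
import Pool.Agent.Pr8db9c5.Main

set_option autoImplicit false

namespace Pool.Agent.Results.MP_8db9c5_an.Main

open Pool.Agent.Pr8db9c5

/-- It is not true that for every reflexive real Banach space `X` with an unconditional basis
`(x_i)` the Jamesification `J(x_i)` has trivial isometry group. -/
theorem result :
    ¬ ∀ (X : Type) [NormedAddCommGroup X] [NormedSpace ℝ X] [CompleteSpace X],
      IsReflexive X → ∀ x : ℕ → X, IsUnconditionalBasis x →
      ∀ (J : Type) [NormedAddCommGroup J] [NormedSpace ℝ J] (ι : (ℕ →₀ ℝ) →ₗ[ℝ] J),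
        IsJamesification x J ι → TrivialIsometryGroup J :=
  fun h => not_trivial (h X0 refl_X0 bvec isUB J iota isJ)

end Pool.Agent.Results.MP_8db9c5_an.Main
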